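import Pool.Agent.MP_927be3_nt.W61.S1

namespace Pool.Agent.MP_927be3_nt.W61

open Finset Filter Topology

theorem ASY_row : ASY_s := by
  intro a ha
  have hG : Real.Gamma a ≠ 0 := (Real.Gamma_pos_of_pos ha).ne'
  have h1 := (Real.GammaSeq_tendsto_Gamma a).inv₀ hG
  have h2 := (tendsto_natCast_div_add_atTop (𝕜 := ℝ) a).mul h1
  rw [one_mul, ← one_div] at h2
  refine h2.congr' ?_
  filter_upwards [eventually_gt_atTop 0] with n hn
  have hn' : (0 : ℝ) < n := by exact_mod_cast hn
  have hp : (0 : ℝ) < ∏ j ∈ range n, (a + j) := prod_pos fun j _ => by positivity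
  have hf : (0 : ℝ) < n.factorial := by exact_mod_cast n.factorial_pos
  have hr : (0 : ℝ) < (n : ℝ) ^ a := Real.rpow_pos_of_pos hn' a
  have ha' : (0 : ℝ) < n + a := by positivity
  rw [Real.GammaSeq, cc, prod_range_succ, Real.rpow_sub_one hn'.ne', add_comm a (n : ℝ)]
  field_simp

end Pool.Agent.MP_927be3_nt.W61
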