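import Pool.Agent.MP_927be3_nt.W61.S2
import Pool.Agent.MP_927be3_nt.Up.E

namespace Pool.Agent.MP_927be3_nt.W61

open Finset Filter Topology Pool.Agent.MP_927be3_nt.W

theorem circ_row (hSI : SINT_s) (hTA : TAIL_s) : CIRC_s := by
  classical
  intro k s hk hs h η hη
  have hk1 : 1 ≤ k := by omega
  obtain ⟨A2, hA2, hS2⟩ := ss_upper hk hs
  obtain ⟨A3, hA3, hJ⟩ := hSI k s hk1 (by omega)
  obtain ⟨A4, hA4, hT⟩ := tail hk hs
  obtain ⟨A5, hA5, hZ⟩ := hTA k s hk hs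
  obtain ⟨N1, hN1⟩ := exists_nat_ge ((A2 * A3 + A4 + A5 * A3) / (η / 2))
  obtain ⟨Q0, hQ2, hQ3⟩ : ∃ Q0 : ℕ, 1 ≤ Q0 ∧ N1 ≤ Q0 := ⟨1 + N1, by omega, by omega⟩
  have hQR : (1 : ℝ) ≤ Q0 := by exact_mod_cast hQ2
  have hQ4 : (A2 * A3 + A4 + A5 * A3) / Q0 ≤ η / 2 := by
    have : (N1 : ℝ) ≤ Q0 := by exact_mod_cast hQ3
    rw [div_le_iff₀ (by positivity)] at hN1
    rw [div_le_iff₀ (by positivity)]
    nlinarith
  obtain ⟨A1, hA1, P1, hC⟩ := core_main (s := s) hk1 (by omega) hQ2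
  obtain ⟨P2, hM⟩ := minor_sum (show 0 < cM k by unfold cM; positivity) (by omega) h
    (show 0 < η / 4 by positivity)
  obtain ⟨N2, hN2⟩ := exists_nat_ge (A1 / (η / 4))
  refine ⟨P1 + P2 + N2 + s + 3 * Q0, fun P n hP hn1 hn2 => ?_⟩
  obtain ⟨q, hq0, hG⟩ := exists_good k P
  have : NeZero q := ⟨hq0⟩
  have hP1 : 1 ≤ P := by omega
  have hPR : (1 : ℝ) ≤ P := by exact_mod_cast hP1
  have hqR : (0 : ℝ) < q := by exact_mod_cast Nat.pos_of_ne_zero hq0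
  have hsz := circle_size hk1 (show s ≤ P by omega) hG
  have hs1 : (P + 1) ^ k ≤ s * (P + 1) ^ k := Nat.le_mul_of_pos_left _ (by omega)
  have hs2 : s * P ^ k ≤ s * (P + 1) ^ k :=
    Nat.mul_le_mul_left _ (Nat.pow_le_pow_left (by omega) _)
  have hP4 : A1 / P ≤ η / 4 := by
    have : (N2 : ℝ) ≤ P := by exact_mod_cast (show N2 ≤ P by omega)
    rw [div_le_iff₀ (by positivity)] at hN2
    rw [div_le_iff₀ (by positivity)]
    nlinarith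
  have hP5 : 3 * (Q0 : ℝ) ≤ (P : ℝ) ^ k := by
    have : 3 * Q0 ≤ P ^ k := le_trans (by omega) (Nat.le_self_pow (by omega) P)
    exact_mod_cast this
  obtain ⟨hJ2, hJ3⟩ := hJ P n q hP1 hn1 hn2 hsz
  have e0 := four_rep (k := k) (s := s) (P := P) (n := n) (q := q) (by omega) (by omega)
  have e1 := hC P q n (by omega) hG
  have e2 := hJ3 Q0 hQR hP5
  have e3 := hT Q0 P q hQ2 hP1 hG
  have e4 := hM P (by omega) q hG
  have e5 := circle_split (fun a : ZMod q => fw k P a ^ s * ch (-(a * (n : ZMod q))))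
    (fun a => ‖fw k P a‖ ^ s) (fun a => by rw [norm_mul, norm_ch, mul_one, norm_pow])
    (Core k P Q0) (fun a => Maj k P (‖fw k P a‖ / cM k) a)
  have e6 := (hZ n).2.2 Q0 hQ2
  have e7 := hS2 n Q0
  rw [e0] at e5
  set Y := (P : ℝ) ^ s / (P : ℝ) ^ k with hY
  have hY0 : 0 < Y := by positivity
  rw [mul_div_assoc, ← hY] at hJ2
  generalize cpow (wt k) s n = J at hJ2 e2 ⊢
  set U := ∑ a : ZMod q with Core k P Q0 a, fw k P a ^ s * ch (-(a * (n : ZMod q))) with hU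
  set W := ∑ β ∈ Icc (-(⌊(Q0 : ℝ) * q / (P : ℝ) ^ k⌋₊ : ℤ)) (⌊(Q0 : ℝ) * q / (P : ℝ) ^ k⌋₊ : ℤ),
    vv k P (β : ZMod q) ^ s * ch (-((β : ZMod q) * (n : ZMod q))) with hW
  have f1 : A1 * q * (P : ℝ) ^ s / ((P : ℝ) ^ k * P) = A1 / P * (q * Y) := by
    rw [hY]; field_simp
  have f2 : A3 * q * (P : ℝ) ^ s / ((P : ℝ) ^ k * Q0) = A3 / Q0 * (q * Y) := by
    rw [hY]; field_simp
  have f3 : A4 * q * (P : ℝ) ^ s / ((P : ℝ) ^ k * Q0) = A4 / Q0 * (q * Y) := by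
    rw [hY]; field_simp
  have f4 : η / 4 * q * (P : ℝ) ^ s / (P : ℝ) ^ k = η / 4 * (q * Y) := by
    rw [hY]; field_simp
  rw [f1] at e1
  rw [f2] at e2
  rw [f3] at e3
  rw [f4] at e4
  generalize SS k s n Q0 = S at e1 e6 e7
  generalize sing k s n = Z at e6 ⊢
  have hqY : 0 < (q : ℝ) * Y := by positivity
  have g1 : ‖S * (W - q * (J : ℂ))‖ ≤ A2 * (A3 / Q0 * (q * Y)) := by
    rw [norm_mul]
    exact mul_le_mul e7 e2 (norm_nonneg _) hA2.le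
  have g2 : ‖(Z - S) * (q * (J : ℂ))‖ ≤ A5 / Q0 * (q * (A3 * Y)) := by
    rw [norm_mul, norm_mul, Complex.norm_natCast, Complex.norm_real, Real.norm_eq_abs]
    exact mul_le_mul e6 (mul_le_mul_of_nonneg_left hJ2 hqR.le) (by positivity) (by positivity)
  have g3 : (q : ℂ) * ((Rep k s P n : ℂ) - Z * (J : ℂ)) =
      ((q : ℂ) * (Rep k s P n : ℂ) - U) + (U - S * W) + S * (W - q * (J : ℂ)) -
        (Z - S) * (q * (J : ℂ)) := by ring
  have g4 : ‖(q : ℂ) * ((Rep k s P n : ℂ) - Z * (J : ℂ))‖ ≤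
      ‖(q : ℂ) * (Rep k s P n : ℂ) - U‖ + ‖U - S * W‖ + ‖S * (W - q * (J : ℂ))‖ +
        ‖(Z - S) * (q * (J : ℂ))‖ := by
    rw [g3]
    exact (norm_sub_le _ _).trans (add_le_add_left norm_add₃_le _)
  have g5 := mul_le_mul_of_nonneg_right hQ4 hqY.le
  have g6 := mul_le_mul_of_nonneg_right hP4 hqY.le
  have g7 : (A2 * A3 + A4 + A5 * A3) / Q0 * (q * Y) = A2 * (A3 / Q0 * (q * Y)) +
      A4 / Q0 * (q * Y) + A5 / Q0 * (q * (A3 * Y)) := by ring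
  rw [norm_mul, Complex.norm_natCast] at g4
  refine le_of_mul_le_mul_left ?_ hqR
  have g8 : (q : ℝ) * (η * Y) = η / 2 * (q * Y) + η / 4 * (q * Y) + η / 4 * (q * Y) := by ring
  linarith

end Pool.Agent.MP_927be3_nt.W61
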