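import Pool.Agent.MP_927be3_nt.W61.S2

namespace Pool.Agent.MP_927be3_nt.W61

open Finset Filter Topology Pool.Agent.MP_927be3_nt.W

theorem cnt_zero (k s P n : ℕ) (hk : 1 ≤ k) (i : Fin (s + 1)) :
    #{x ∈ ({x ∈ Fintype.piFinset (fun _ : Fin (s + 1) => range (P + 1)) | ∑ j, x j ^ k = n} :
      Finset (Fin (s + 1) → ℕ)) | x i = 0} ≤
      #{x ∈ Fintype.piFinset (fun _ : Fin s => range (P + 1)) | ∑ j, x j ^ k = n} := by
  refine card_le_card_of_injOn (fun x j => x (i.succAbove j)) (fun x hx => ?_) ?_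
  · simp only [coe_filter, mem_filter, Fintype.mem_piFinset, Set.mem_ofPred_eq] at hx ⊢
    refine ⟨fun j => hx.1.1 _, ?_⟩
    have h := hx.1.2
    rwa [Fin.sum_univ_succAbove _ i, hx.2, zero_pow (by omega), zero_add] at h
  · intro x hx y hy h
    simp only [coe_filter, mem_filter, Set.mem_ofPred_eq] at hx hy
    funext j
    rcases eq_or_ne j i with rfl | hj
    · rw [hx.2, hy.2]
    · obtain ⟨l, rfl⟩ := Fin.exists_succAbove_eq hj
      exact congrFun h l

theorem cnt_R (k s P n : ℕ) (hn : n < (P + 1) ^ k) : R k s n =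
    #{x ∈ ({x ∈ Fintype.piFinset (fun _ : Fin s => range (P + 1)) | ∑ j, x j ^ k = n} :
      Finset (Fin s → ℕ)) | ∀ i, 1 ≤ x i} := by
  rw [R, ← Set.ncard_coe_finset]
  refine congrArg Set.ncard (Set.ext fun x => ?_)
  simp only [coe_filter, mem_filter, Fintype.mem_piFinset, Set.mem_ofPred_eq, mem_range]
  refine ⟨fun h => ⟨⟨fun i => ?_, h.2⟩, h.1⟩, fun h => ⟨h.2, h.1.2⟩⟩
  refine lt_of_pow_lt_pow_left₀ k (Nat.zero_le _) (lt_of_le_of_lt ?_ hn)
  rw [← h.2]
  exact single_le_sum (f := fun j => x j ^ k) (fun _ _ => Nat.zero_le _) (mem_univ i)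

theorem cnt_row : CNT_s := by
  intro k s P n hk hn
  rw [cnt_R k (s + 1) P n hn, W.Rep, W.Rep]
  refine ⟨card_filter_le _ _, ?_⟩
  rw [← card_filter_add_card_filter_not (s := {x ∈ Fintype.piFinset
    (fun _ : Fin (s + 1) => range (P + 1)) | ∑ j, x j ^ k = n}) fun x => ∀ i, 1 ≤ x i]
  refine Nat.add_le_add_left ?_ _
  refine (card_le_card (t := univ.biUnion fun i : Fin (s + 1) =>
    {x ∈ ({x ∈ Fintype.piFinset (fun _ : Fin (s + 1) => range (P + 1)) | ∑ j, x j ^ k = n} :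
      Finset (Fin (s + 1) → ℕ)) | x i = 0}) fun x hx => ?_).trans (card_biUnion_le.trans ?_)
  · obtain ⟨h1, h2⟩ := mem_filter.1 hx
    obtain ⟨i, hi⟩ := not_forall.1 h2
    exact mem_biUnion.2 ⟨i, mem_univ _, mem_filter.2 ⟨h1, by omega⟩⟩
  · refine (sum_le_sum fun i _ => cnt_zero k s P n hk i).trans ?_
    rw [sum_const, card_univ, Fintype.card_fin, smul_eq_mul]

end Pool.Agent.MP_927be3_nt.W61
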