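import Pool.Agent.MP_927be3_nt.W61.S1

namespace Pool.Agent.MP_927be3_nt.W61

open Finset Filter Topology

theorem conv_pos {a : ℝ} (ha : 0 < a) (n : ℕ) : 0 < cc a n :=
  div_pos (prod_pos fun j _ => by positivity) (by exact_mod_cast n.factorial_pos)

theorem conv_symm (u v : ℕ → ℝ) (n : ℕ) : conv u v n = conv v u n := by
  unfold conv
  rw [← Finset.Nat.sum_antidiagonal_swap]
  exact sum_congr rfl fun p _ => mul_comm _ _

theorem conv_zero {a A : ℝ} {u : ℕ → ℝ} (ha : 0 < a)
    (hu : Tendsto (fun n : ℕ => u n / cc a n) atTop (𝓝 A)) :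
    Tendsto (fun n : ℕ => (u n - A * cc a n) / cc a n) atTop (𝓝 0) := by
  have h := hu.sub_const A
  rw [sub_self] at h
  refine h.congr fun n => ?_
  have := (conv_pos ha n).ne'
  field_simp

theorem conv_row (hV : VAN_s) (hL : LIT_s) : CONV_s := by
  intro a b A B u v ha hb hu hv
  obtain ⟨C, hC⟩ := hv.abs.bddAbove_range
  have h1 : ∀ n, |v n| ≤ C * cc b n := fun n => by
    have h := hC ⟨n, rfl⟩
    have h0 := conv_pos hb n
    simp only [abs_div, abs_of_pos h0] at h
    exact (div_le_iff₀ h0).1 h
  have h2 := hL a b C (fun n => u n - A * cc a n) v ha hb (conv_zero ha hu) h1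
  have h3 := hL b a 1 (fun n => v n - B * cc b n) (cc a) hb ha (conv_zero hb hv) fun n => by
    rw [abs_of_pos (conv_pos ha n), one_mul]
  rw [add_comm b a] at h3
  have h4 := (h2.add (h3.const_mul A)).add_const (A * B)
  rw [mul_zero, add_zero, zero_add] at h4
  refine h4.congr fun n => ?_
  have h0 := (conv_pos (add_pos ha hb) n).ne'
  have e : conv u v n = conv (fun n => u n - A * cc a n) v n +
      A * conv (fun n => v n - B * cc b n) (cc a) n + A * B * cc (a + b) n := by
    rw [conv_symm (fun n => v n - B * cc b n), ← hV a b n]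
    unfold conv
    rw [mul_sum, mul_sum, ← sum_add_distrib, ← sum_add_distrib]
    exact sum_congr rfl fun p _ => by ring
  rw [e]
  field_simp

end Pool.Agent.MP_927be3_nt.W61
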