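import Mathlib

namespace Pool.Agent.MP_927be3_nt.W61

open Finset

/-- `e(t) = exp (2 π i t)` -/
noncomputable def ex (t : ℝ) : ℂ := Complex.exp (2 * Real.pi * Complex.I * t)

/-- the complete sum `S(q, a)` -/
noncomputable def gauss (k q a : ℕ) : ℂ := ∑ x ∈ range q, ex ((a : ℝ) * (x : ℝ) ^ k / q)

/-- the term `A(q, n)` of the singular series -/
noncomputable def term (k s n q : ℕ) : ℂ :=
  ∑ a ∈ (range q).filter (fun a => Nat.Coprime a q),
    (gauss k q a / q) ^ s * ex (-((a : ℝ) * n / q))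

/-- the singular series -/
noncomputable def sing (k s n : ℕ) : ℂ := ∑' q : ℕ, term k s n (q + 1)

/-- the number of representations of `n` as a sum of `s` positive `k`-th powers -/
noncomputable def R (k s n : ℕ) : ℕ :=
  Set.ncard {x : Fin s → ℕ | (∀ i, 1 ≤ x i) ∧ ∑ i, x i ^ k = n}

end Pool.Agent.MP_927be3_nt.W61
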