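import Pool.Agent.MP_927be3_nt.W61.S1

namespace Pool.Agent.MP_927be3_nt.W61

open Finset

theorem exp_cons (M s : ℕ) (F : (Fin (s + 1) → ℕ) → ℝ) :
    ∑ f ∈ Fintype.piFinset (fun _ : Fin (s + 1) => range M), F f =
      ∑ a ∈ range M, ∑ f ∈ Fintype.piFinset (fun _ : Fin s => range M), F (Fin.cons a f) := by
  rw [← sum_product']
  refine (sum_bij' (fun p _ => Fin.cons p.1 p.2) (fun f _ => (f 0, Fin.tail f)) ?_ ?_ ?_ ?_ ?_).symm
  · intro p hp
    rw [mem_product, Fintype.mem_piFinset] at hp
    rw [Fintype.mem_piFinset]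
    exact fun i => Fin.cases hp.1 hp.2 i
  · intro f hf
    rw [Fintype.mem_piFinset] at hf
    rw [mem_product, Fintype.mem_piFinset]
    exact ⟨hf 0, fun i => hf i.succ⟩
  · intro p _
    simp
  · intro f _
    simp
  · intro p _
    rfl

theorem exp_row : EXP_s := by
  intro u s M
  induction s with
  | zero =>
    intro n _
    simp [cpow, eq_comm]
  | succ s ih =>
    intro n hn
    rw [exp_cons, cpow, conv, Nat.sum_antidiagonal_eq_sum_range_succ_mk]
    refine (sum_subset (s₁ := range (n + 1)) (range_subset_range.2 hn) fun a _ ha => ?_).symm.trans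
      (sum_congr rfl fun a ha => ?_)
    · rw [mem_range] at ha
      refine sum_eq_zero fun f _ => if_neg ?_
      rw [Fin.sum_cons]
      omega
    · rw [mem_range] at ha
      rw [← ih (n - a) (by omega), mul_sum]
      refine sum_congr rfl fun f _ => ?_
      rw [Fin.sum_cons, Fin.prod_univ_succ]
      simp only [Fin.cons_zero, Fin.cons_succ]
      by_cases h : ∑ i, f i = n - a
      · rw [if_pos h, if_pos (by omega)]
      · rw [if_neg h, if_neg (by omega), mul_zero]

end Pool.Agent.MP_927be3_nt.W61
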