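import Pool.Agent.MP_927be3_nt.W61.S2

namespace Pool.Agent.MP_927be3_nt.W61

open Finset Filter Topology Pool.Agent.MP_927be3_nt.W

-- BEGIN
theorem full_expand {q : ℕ} [NeZero q] (s M n : ℕ) (u : ℕ → ℝ) :
    ∑ β : ZMod q, (∑ m ∈ range M, (u m : ℂ) * ch (β * (m : ZMod q))) ^ s *
        ch (-(β * (n : ZMod q))) =
      q * ((∑ f ∈ Fintype.piFinset (fun _ : Fin s => range M),
        if (∑ i, (f i : ZMod q)) - (n : ZMod q) = 0 then ∏ i, u (f i) else 0 : ℝ) : ℂ) := by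
  have h1 : ∀ β : ZMod q, (∑ m ∈ range M, (u m : ℂ) * ch (β * (m : ZMod q))) ^ s *
      ch (-(β * (n : ZMod q))) = ∑ f ∈ Fintype.piFinset (fun _ : Fin s => range M),
        (∏ i, (u (f i) : ℂ)) * ch (β * ((∑ i, (f i : ZMod q)) - (n : ZMod q))) := by
    intro β
    rw [Finset.sum_pow', sum_mul]
    refine sum_congr rfl fun f _ => ?_
    rw [prod_mul_distrib, ← ch_sum, mul_assoc, ← ch_add, ← mul_sum]
    congr 2
    ring
  simp_rw [h1]
  rw [sum_comm]
  push_cast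
  rw [mul_sum]
  refine sum_congr rfl fun f _ => ?_
  rw [← mul_sum, ch_orth]
  split_ifs
  · push_cast
    ring
  · simp

theorem full_iff {q s M n : ℕ} (hs : 1 ≤ s) (hn : n < M) (hq : s * M < q) (f : Fin s → ℕ)
    (hf : ∀ i, f i < M) : (∑ i, (f i : ZMod q)) - (n : ZMod q) = 0 ↔ ∑ i, f i = n := by
  have h1 : ∑ i, f i ≤ s * M := by
    calc ∑ i, f i ≤ ∑ _i : Fin s, M := sum_le_sum fun i _ => (hf i).le
      _ = s * M := by simp
  have h2 : M ≤ s * M := Nat.le_mul_of_pos_left M hs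
  rw [sub_eq_zero, ← Nat.cast_sum, ZMod.natCast_eq_natCast_iff']
  rw [Nat.mod_eq_of_lt (by omega), Nat.mod_eq_of_lt (by omega)]

theorem full_row (hV : VV_s) (hE : EXP_s) : FULL_s := by
  intro k s P n q _ hk hs hn hq
  have h1 : ∀ β : ZMod q, vv k P β =
      ∑ m ∈ range ((P + 1) ^ k), (wt k m : ℂ) * ch (β * (m : ZMod q)) :=
    fun β => hV k P q β hk
  simp_rw [h1]
  rw [full_expand s _ n (wt k), ← hE (wt k) s ((P + 1) ^ k) n hn]
  congr 2
  refine sum_congr rfl fun f hf => ?_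
  have h2 := full_iff hs hn hq f fun i => mem_range.1 (Fintype.mem_piFinset.1 hf i)
  by_cases h : ∑ i, f i = n
  · rw [if_pos h, if_pos (h2.2 h)]
  · rw [if_neg h, if_neg (fun h' => h (h2.1 h'))]

end Pool.Agent.MP_927be3_nt.W61
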