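import Pool.Agent.MP_927be3_nt.W61.S1

namespace Pool.Agent.MP_927be3_nt.W61

open Finset Filter Topology

theorem jas_pos {a : ℝ} (ha : 0 < a) (n : ℕ) : 0 < cc a n :=
  div_pos (prod_pos fun j _ => by positivity) (by positivity)

theorem jas_one (u : ℕ → ℝ) (n : ℕ) : cpow u 1 n = u n := by
  show ∑ p ∈ antidiagonal n, u p.1 * (if p.2 = 0 then 1 else 0) = u n
  rw [sum_eq_single (n, 0)]
  · simp
  · rintro ⟨i, j⟩ h hne
    have h1 : i + j = n := mem_antidiagonal.1 h
    have h2 : j ≠ 0 := fun h0 => hne (by subst h0; simpa using h1)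
    simp [h2]
  · simp

theorem jas_row (hA : ASY_s) (hC : CONV_s) (hW : WT_s) : JAS_s := by
  intro k s hk hs
  have hk0 : (0 : ℝ) < k := by exact_mod_cast hk
  have ha : (0 : ℝ) < 1 / k := by positivity
  have hG := Real.Gamma_pos_of_pos ha
  have h1 : Tendsto (fun n : ℕ => wt k n / cc (1 / k) n) atTop (𝓝 (Real.Gamma (1 + 1 / k))) := by
    have h2 := (hW k hk).div (hA _ ha) (by positivity)
    have h3 : 1 / (k : ℝ) / (1 / Real.Gamma (1 / k)) = Real.Gamma (1 + 1 / k) := by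
      rw [add_comm, Real.Gamma_add_one ha.ne', div_div_eq_mul_div, div_one]
    rw [h3] at h2
    refine h2.congr' ((eventually_gt_atTop 0).mono fun n hn => ?_)
    have h4 : (0 : ℝ) < (n : ℝ) ^ (1 / (k : ℝ) - 1) := Real.rpow_pos_of_pos (by exact_mod_cast hn) _
    exact div_div_div_cancel_right₀ h4.ne' _ _
  have h2 : ∀ t : ℕ, Tendsto (fun n : ℕ => cpow (wt k) (t + 1) n / cc (((t + 1 : ℕ) : ℝ) / k) n)
      atTop (𝓝 (Real.Gamma (1 + 1 / k) ^ (t + 1))) := by
    intro t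
    induction t with
    | zero => simpa [jas_one] using h1
    | succ t ih =>
      have h3 := hC _ _ _ _ _ _ ha (by positivity) h1 ih
      have h4 : 1 / (k : ℝ) + ((t + 1 : ℕ) : ℝ) / k = ((t + 1 + 1 : ℕ) : ℝ) / k := by
        push_cast
        ring
      rw [h4, ← pow_succ'] at h3
      exact h3
  obtain ⟨t, rfl⟩ : ∃ t, s = t + 1 := ⟨s - 1, by omega⟩
  have hb : (0 : ℝ) < ((t + 1 : ℕ) : ℝ) / k := by positivity
  have h3 := (h2 t).mul (hA _ hb)
  rw [mul_one_div] at h3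
  refine h3.congr fun n => ?_
  rw [div_mul_div_cancel₀ (jas_pos hb n).ne']

end Pool.Agent.MP_927be3_nt.W61
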