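import Pool.Agent.MP_927be3_nt.W61.S1

namespace Pool.Agent.MP_927be3_nt.W61

open Finset Filter Topology

theorem lit_pos {a : ℝ} (ha : 0 < a) (n : ℕ) : 0 < cc a n :=
  div_pos (prod_pos fun j _ => by positivity) (by exact_mod_cast n.factorial_pos)

theorem lit_succ (a : ℝ) (n : ℕ) : cc a (n + 1) = cc a n * ((a + n) / (n + 1)) := by
  have h1 : (n.factorial : ℝ) ≠ 0 := by exact_mod_cast n.factorial_pos.ne'
  have h2 : (n : ℝ) + 1 ≠ 0 := by positivity
  unfold cc
  rw [prod_range_succ, Nat.factorial_succ]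
  push_cast
  field_simp

theorem lit_shift {c : ℝ} (hc : 0 < c) (m : ℕ) :
    Tendsto (fun n : ℕ => cc c n / cc c (n + m)) atTop (𝓝 1) := by
  induction m with
  | zero =>
    refine tendsto_const_nhds.congr fun n => ?_
    rw [add_zero, div_self (lit_pos hc n).ne']
  | succ m ih =>
    have h1 : Tendsto (fun n : ℕ => c + ((n + m : ℕ) : ℝ)) atTop atTop :=
      tendsto_atTop_add_const_left _ _
        (tendsto_natCast_atTop_atTop.comp (tendsto_add_atTop_nat m))
    have h2 := (h1.const_div_atTop (1 - c)).const_add 1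
    have h3 := ih.mul h2
    rw [add_zero, mul_one] at h3
    refine h3.congr fun n => ?_
    have p1 := (lit_pos hc (n + m)).ne'
    have p2 : c + ((n + m : ℕ) : ℝ) ≠ 0 := by positivity
    have p3 : ((n + m : ℕ) : ℝ) + 1 ≠ 0 := by positivity
    rw [← add_assoc, lit_succ]
    field_simp
    ring

theorem lit_ratio (hA : ASY_s) {a b : ℝ} (ha : 0 < a) (hb : 0 < b) :
    Tendsto (fun n : ℕ => cc b n / cc (a + b) n) atTop (𝓝 0) := by
  have hab : 0 < a + b := add_pos ha hb
  have h1 := (hA b hb).div (hA (a + b) hab) (one_div_pos.2 (Real.Gamma_pos_of_pos hab)).ne'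
  have h2 : Tendsto (fun n : ℕ => (n : ℝ) ^ (-a)) atTop (𝓝 0) :=
    (tendsto_rpow_neg_atTop ha).comp tendsto_natCast_atTop_atTop
  have h3 := h1.mul h2
  rw [mul_zero] at h3
  refine h3.congr' ((eventually_gt_atTop 0).mono fun n hn => ?_)
  have p0 : (0 : ℝ) < n := by exact_mod_cast hn
  have p1 := (lit_pos hab n).ne'
  have p2 : (n : ℝ) ^ (b - 1) ≠ 0 := (Real.rpow_pos_of_pos p0 _).ne'
  have p3 : (n : ℝ) ^ (a + b - 1) ≠ 0 := (Real.rpow_pos_of_pos p0 _).ne'
  have p4 : (n : ℝ) ^ (a + b - 1) * (n : ℝ) ^ (-a) = (n : ℝ) ^ (b - 1) := by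
    rw [← Real.rpow_add p0]
    congr 1
    ring
  simp only [Pi.div_apply]
  rw [← p4] at p2 ⊢
  have p5 := right_ne_zero_of_mul p2
  field_simp

theorem lit_fix (hA : ASY_s) {a b : ℝ} (ha : 0 < a) (hb : 0 < b) (m : ℕ) :
    Tendsto (fun n : ℕ => cc b (n - m) / cc (a + b) n) atTop (𝓝 0) := by
  have hab : 0 < a + b := add_pos ha hb
  rw [← tendsto_add_atTop_iff_nat m]
  have h := (lit_ratio hA ha hb).mul (lit_shift hab m)
  rw [zero_mul] at h
  refine h.congr fun n => ?_
  have p1 := (lit_pos hab n).ne'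
  rw [Nat.add_sub_cancel]
  field_simp

theorem lit_row (hV : VAN_s) (hA : ASY_s) : LIT_s := by
  intro a b C u v ha hb hu hv
  have hab : 0 < a + b := add_pos ha hb
  have hC : 0 ≤ C := nonneg_of_mul_nonneg_left ((abs_nonneg _).trans (hv 0)) (lit_pos hb 0)
  rw [Metric.tendsto_nhds]
  intro ε hε
  obtain ⟨η, hη, hη2⟩ : ∃ η : ℝ, 0 < η ∧ η * C ≤ ε / 2 := by
    refine ⟨ε / (2 * (C + 1)), by positivity, ?_⟩
    rw [div_mul_eq_mul_div, div_le_div_iff₀ (by positivity) (by positivity)]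
    nlinarith
  obtain ⟨M, hM⟩ := eventually_atTop.1 (Metric.tendsto_nhds.1 hu η hη)
  have h1 : Tendsto (fun n : ℕ => ∑ m ∈ range M, C * |u m| * (cc b (n - m) / cc (a + b) n))
      atTop (𝓝 (∑ m ∈ range M, C * |u m| * 0)) :=
    tendsto_finsetSum _ fun m _ => (lit_fix hA ha hb m).const_mul _
  simp only [mul_zero, sum_const_zero] at h1
  refine (h1.eventually (gt_mem_nhds (half_pos hε))).mono fun n hn => ?_
  have p := lit_pos hab n
  rw [Real.dist_eq, sub_zero, abs_div, abs_of_pos p, div_lt_iff₀ p]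
  have h2 : ∀ m, |u m| ≤ η * cc a m + if m < M then |u m| else 0 := by
    intro m
    have q := lit_pos ha m
    split_ifs with h
    · have : 0 < η * cc a m := mul_pos hη q
      linarith
    · have := hM m (not_lt.1 h)
      rw [Real.dist_eq, sub_zero, abs_div, abs_of_pos q, div_lt_iff₀ q] at this
      linarith
  have h3 : |conv u v n| ≤ ∑ x ∈ antidiagonal n, (η * C * (cc a x.1 * cc b x.2) +
      if x.1 < M then C * |u x.1| * cc b x.2 else 0) := by
    refine (abs_sum_le_sum_abs _ _).trans (sum_le_sum fun x _ => ?_)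
    rw [abs_mul]
    have q := lit_pos hb x.2
    refine (mul_le_mul (h2 x.1) (hv x.2) (abs_nonneg _) ((abs_nonneg _).trans (h2 x.1))).trans
      (le_of_eq ?_)
    split_ifs <;> ring
  have h4 : ∑ x ∈ antidiagonal n, (if x.1 < M then C * |u x.1| * cc b x.2 else 0) ≤
      ∑ m ∈ range M, C * |u m| * cc b (n - m) := by
    rw [Finset.Nat.sum_antidiagonal_eq_sum_range_succ_mk, ← sum_filter]
    refine sum_le_sum_of_subset_of_nonneg (fun m hm => mem_range.2 (mem_filter.1 hm).2)
      fun m _ _ => mul_nonneg (mul_nonneg hC (abs_nonneg _)) (lit_pos hb _).le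
  have h5 : ∑ m ∈ range M, C * |u m| * cc b (n - m) < ε / 2 * cc (a + b) n := by
    rw [← div_lt_iff₀ p, sum_div]
    simpa only [mul_div_assoc] using hn
  have h6 : ∑ x ∈ antidiagonal n, cc a x.1 * cc b x.2 = cc (a + b) n := hV a b n
  rw [sum_add_distrib, ← mul_sum, h6] at h3
  have h7 := mul_le_mul_of_nonneg_right hη2 p.le
  linarith

end Pool.Agent.MP_927be3_nt.W61
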