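import Mathlib

namespace Pool.Agent.MP_927be3_nt.W61

open Finset Filter Topology

/-- coefficient of `(1 - x)^(-a)` -/
noncomputable def cc (a : ℝ) (n : ℕ) : ℝ := (∏ j ∈ range n, (a + j)) / n.factorial

/-- convolution -/
noncomputable def conv (u v : ℕ → ℝ) (n : ℕ) : ℝ := ∑ p ∈ antidiagonal n, u p.1 * v p.2

/-- convolution power -/
noncomputable def cpow (u : ℕ → ℝ) : ℕ → ℕ → ℝ
  | 0 => fun n => if n = 0 then 1 else 0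
  | s + 1 => conv u (cpow u s)

/-- the weight of the smoothed Weyl sum -/
noncomputable def wt (k m : ℕ) : ℝ :=
  1 / (((Nat.nthRoot k m + 1) ^ k - Nat.nthRoot k m ^ k : ℕ) : ℝ)

def VAN_s : Prop := ∀ (a b : ℝ) (n : ℕ), conv (cc a) (cc b) n = cc (a + b) n

def ASY_s : Prop := ∀ a : ℝ, 0 < a →
  Tendsto (fun n : ℕ => cc a n / (n : ℝ) ^ (a - 1)) atTop (𝓝 (1 / Real.Gamma a))

def LIT_s : Prop := ∀ (a b C : ℝ) (u v : ℕ → ℝ), 0 < a → 0 < b →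
  Tendsto (fun n : ℕ => u n / cc a n) atTop (𝓝 0) → (∀ n, |v n| ≤ C * cc b n) →
  Tendsto (fun n : ℕ => conv u v n / cc (a + b) n) atTop (𝓝 0)

def CONV_s : Prop := ∀ (a b A B : ℝ) (u v : ℕ → ℝ), 0 < a → 0 < b →
  Tendsto (fun n : ℕ => u n / cc a n) atTop (𝓝 A) →
  Tendsto (fun n : ℕ => v n / cc b n) atTop (𝓝 B) →
  Tendsto (fun n : ℕ => conv u v n / cc (a + b) n) atTop (𝓝 (A * B))

def WT_s : Prop := ∀ k : ℕ, 1 ≤ k →
  Tendsto (fun m : ℕ => wt k m / (m : ℝ) ^ (1 / (k : ℝ) - 1)) atTop (𝓝 (1 / (k : ℝ)))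

def JAS_s : Prop := ∀ k s : ℕ, 1 ≤ k → 1 ≤ s →
  Tendsto (fun n : ℕ => cpow (wt k) s n / (n : ℝ) ^ ((s : ℝ) / k - 1)) atTop
    (𝓝 (Real.Gamma (1 + 1 / (k : ℝ)) ^ s / Real.Gamma ((s : ℝ) / k)))

def EXP_s : Prop := ∀ (u : ℕ → ℝ) (s M n : ℕ), n < M →
  (∑ f ∈ Fintype.piFinset (fun _ : Fin s => range M),
    if ∑ i, f i = n then ∏ i, u (f i) else 0) = cpow u s n

end Pool.Agent.MP_927be3_nt.W61
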