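import Pool.Agent.MP_927be3_nt.Up.A
import Pool.Agent.MP_927be3_nt.W61.Defs
import Pool.Agent.MP_927be3_nt.W61.S1

namespace Pool.Agent.MP_927be3_nt.W61

open Finset Filter Topology Pool.Agent.MP_927be3_nt.W

/-- the two landed ranges -/
def Rng (k s : ℕ) : Prop :=
  (k : ℝ) ^ 2 - 3 * k + 12 * Real.sqrt k ≤ s ∨
    ∃ j : ℕ, 1 ≤ j ∧ j < k ∧ 7 * k * (k + 1) + 6 ≤ 10 * s ∧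
      2 * ((k : ℤ) - j) * (k * (k + 1) - s) < 3 * (s - min (2 ^ j) (j * (j + 1)))

def RNG_s : Prop := ∀ k s : ℕ, 5 ≤ k → Rng k s → 4 * k ≤ s ∧ k ^ 2 ≤ 2 * s ∧ LB k s (cM k)

def VV_s : Prop := ∀ (k P q : ℕ) [NeZero q] (β : ZMod q), 1 ≤ k →
  vv k P β = ∑ m ∈ range ((P + 1) ^ k), (wt k m : ℂ) * ch (β * (m : ZMod q))

def FULL_s : Prop := ∀ (k s P n q : ℕ) [NeZero q], 1 ≤ k → 1 ≤ s → n < (P + 1) ^ k →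
  s * (P + 1) ^ k < q →
  ∑ β : ZMod q, vv k P β ^ s * ch (-(β * (n : ZMod q))) = q * ((cpow (wt k) s n : ℝ) : ℂ)

def SINT_s : Prop := ∀ k s : ℕ, 1 ≤ k → 2 * k ≤ s → ∃ A : ℝ, 0 < A ∧
  ∀ (P n q : ℕ) [NeZero q], 1 ≤ P → P ^ k ≤ n → n < (P + 1) ^ k → s * (P + 1) ^ k < q →
    |cpow (wt k) s n| ≤ A * (P : ℝ) ^ s / (P : ℝ) ^ k ∧
      ∀ R : ℝ, 1 ≤ R → 3 * R ≤ (P : ℝ) ^ k →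
        ‖∑ β ∈ Icc (-(⌊R * q / (P : ℝ) ^ k⌋₊ : ℤ)) (⌊R * q / (P : ℝ) ^ k⌋₊ : ℤ),
            vv k P (β : ZMod q) ^ s * ch (-((β : ZMod q) * (n : ZMod q))) -
            q * ((cpow (wt k) s n : ℝ) : ℂ)‖ ≤
          A * q * (P : ℝ) ^ s / ((P : ℝ) ^ k * R)

def TAIL_s : Prop := ∀ k s : ℕ, 3 ≤ k → 3 * k ≤ s → ∃ A : ℝ, 0 < A ∧ ∀ n : ℕ,
  Summable (fun q : ℕ => term k s n (q + 1)) ∧ ‖sing k s n‖ ≤ A ∧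
    ∀ Q0 : ℕ, 1 ≤ Q0 → ‖sing k s n - SS k s n Q0‖ ≤ A / Q0

def LOW_s : Prop := ∀ k s : ℕ, 3 ≤ k → 4 * k ≤ s → k ^ 2 ≤ 2 * s →
  ∃ c : ℝ, 0 < c ∧ ∀ n : ℕ, c ≤ (sing k s n).re

def CIRC_s : Prop := ∀ k s : ℕ, 3 ≤ k → 3 * k ≤ s → LB k s (cM k) → ∀ η : ℝ, 0 < η →
  ∃ P0 : ℕ, ∀ P n : ℕ, P0 ≤ P → P ^ k ≤ n → n < (P + 1) ^ k →
    ‖(Rep k s P n : ℂ) - sing k s n * ((cpow (wt k) s n : ℝ) : ℂ)‖ ≤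
      η * ((P : ℝ) ^ s / (P : ℝ) ^ k)

def MOM_s : Prop := ∀ k s : ℕ, 3 ≤ k → 3 * k ≤ s → LB k s (cM k) → ∃ A : ℝ, 0 < A ∧
  ∃ P0 : ℕ, ∀ (P q : ℕ) [NeZero q], P0 ≤ P → Good k P q →
    ∑ a : ZMod q, ‖fw k P a‖ ^ s ≤ A * q * ((P : ℝ) ^ s / (P : ℝ) ^ k)

def ZER_s : Prop := ∀ k s : ℕ, 3 ≤ k → 3 * k ≤ s + 1 → LB k (s + 1) (cM k) → ∀ η : ℝ, 0 < η →
  ∃ P0 : ℕ, ∀ P n : ℕ, P0 ≤ P → n < (P + 1) ^ k →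
    (Rep k s P n : ℝ) ≤ η * ((P : ℝ) ^ (s + 1) / (P : ℝ) ^ k)

def CNT_s : Prop := ∀ k s P n : ℕ, 1 ≤ k → n < (P + 1) ^ k →
  R k (s + 1) n ≤ Rep k (s + 1) P n ∧
    Rep k (s + 1) P n ≤ R k (s + 1) n + (s + 1) * Rep k s P n

def TOP_s : Prop := ∀ k s : ℕ, 3 ≤ k → 3 * k ≤ s → LB k s (cM k) →
  Tendsto (fun n : ℕ => (R k s n : ℂ) / (((n : ℝ) ^ ((s : ℝ) / k - 1) : ℝ) : ℂ) -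
    ((Real.Gamma (1 + 1 / (k : ℝ)) ^ s / Real.Gamma ((s : ℝ) / k) : ℝ) : ℂ) * sing k s n)
    atTop (𝓝 0)

end Pool.Agent.MP_927be3_nt.W61
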