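import Pool.Agent.MP_927be3_nt.Up.E
import Pool.Agent.MP_927be3_nt.W61.S2

/-! Row LOW of campaign h61w: the singular series is bounded below. -/

namespace Pool.Agent.MP_927be3_nt.W61

open Finset Filter Topology Pool.Agent.MP_927be3_nt.W

-- BEGIN
theorem low_row (hT : TAIL_s) : LOW_s := by
  intro k s hk h1 h2
  obtain ⟨c, hc, Q1, hS⟩ := ss_lower hk (by omega : 3 * k ≤ s) (locOK (by omega) h1 h2)
  obtain ⟨A, hA, hB⟩ := hT k s hk (by omega)
  obtain ⟨N, hN⟩ := exists_nat_ge (2 * A / c)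
  refine ⟨c / 2, by positivity, fun n => ?_⟩
  have a1 := hS n (Q1 + N + 1) (by omega)
  have a2 := (hB n).2.2 (Q1 + N + 1) (by omega)
  have a3 : A / ((Q1 + N + 1 : ℕ) : ℝ) ≤ c / 2 := by
    rw [div_le_iff₀ (by positivity)]
    rw [div_le_iff₀ hc] at hN
    have q0 : (0 : ℝ) ≤ Q1 := Nat.cast_nonneg _
    push_cast
    nlinarith
  have a4 := (Complex.abs_re_le_norm (sing k s n - SS k s n (Q1 + N + 1))).trans a2
  rw [Complex.sub_re] at a4
  linarith [(abs_le.1 a4).1]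

end Pool.Agent.MP_927be3_nt.W61
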