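import Pool.Agent.MP_927be3_nt.W61.S2
import Pool.Agent.MP_927be3_nt.Up.E

namespace Pool.Agent.MP_927be3_nt.W61

open Finset Filter Topology Pool.Agent.MP_927be3_nt.W

theorem mom_core {k P q : ℕ} [NeZero q] (hP : 1 ≤ P) (hPq : P ^ k ≤ q) (S : Finset (ZMod q))
    (hS : ∀ a ∈ S, Core k P 1 a) : (#S : ℝ) ≤ 3 * (q / (P : ℝ) ^ k) := by
  classical
  have hP0 : (0 : ℝ) < (P : ℝ) ^ k := by
    have : (0 : ℝ) < P := by exact_mod_cast hP
    positivity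
  have h1 : (1 : ℝ) ≤ q / (P : ℝ) ^ k := by
    rw [le_div_iff₀ hP0, one_mul]
    exact_mod_cast hPq
  obtain ⟨x, hx⟩ : ∃ x : ℝ, x = q / (P : ℝ) ^ k := ⟨_, rfl⟩
  rw [← hx] at h1 ⊢
  have hsub : S ⊆ (Icc (-(⌊x⌋₊ : ℤ)) (⌊x⌋₊ : ℤ)).image (fun β : ℤ => (β : ZMod q)) := by
    intro a ha
    obtain ⟨d, b, β, a1, a2, a3, -, a5, a6⟩ := hS a ha
    have hb : b = 0 := by omega
    subst hb
    refine mem_image.2 ⟨β, (corea_mem (by linarith) β).2 ?_, by simp [a6]⟩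
    rw [hx]
    simpa using a5
  have h2 : #S ≤ 2 * ⌊x⌋₊ + 1 := by
    refine (card_le_card hsub).trans (card_image_le.trans ?_)
    rw [Int.card_Icc]
    omega
  have h3 : (#S : ℝ) ≤ 2 * (⌊x⌋₊ : ℝ) + 1 := by exact_mod_cast h2
  have h4 := Nat.floor_le (show (0 : ℝ) ≤ x by linarith)
  linarith

theorem MOM_row : MOM_s := by
  classical
  intro k s hk hs h
  obtain ⟨A, hA, hT⟩ := tail hk hs
  obtain ⟨P0, hM⟩ := minor_sum (lt_of_lt_of_le two_pos (fina_cM k)) (by omega) h one_pos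
  refine ⟨3 * 2 ^ s + A + 1, by positivity, P0 + 1, fun P q _ hP hG => ?_⟩
  have hP1 : 1 ≤ P := by omega
  have hPR : (1 : ℝ) ≤ P := by exact_mod_cast hP1
  have hPq : P ^ k ≤ q :=
    (Nat.pow_le_pow_left (Nat.le_succ P) k).trans ((tail_le (by omega)).trans (hG.le (by omega)))
  have b1 := hT 1 P q le_rfl hP1 hG
  have b2 := hM P (by omega) q hG
  have b3 := mom_core hP1 hPq (univ.filter fun a : ZMod q => Core k P 1 a)
    (fun a ha => (mem_filter.1 ha).2)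
  have b4 : ∑ a : ZMod q with Core k P 1 a, ‖fw k P a‖ ^ s ≤
      3 * (q / (P : ℝ) ^ k) * (2 * (P : ℝ)) ^ s := by
    refine (sum_le_card_nsmul _ _ ((2 * (P : ℝ)) ^ s) fun a _ => ?_).trans ?_
    · exact pow_le_pow_left₀ (norm_nonneg _) ((norm_fw_le k P a).trans (by linarith)) s
    · rw [nsmul_eq_mul]
      exact mul_le_mul_of_nonneg_right b3 (by positivity)
  have b5 : ∑ a : ZMod q, ‖fw k P a‖ ^ s ≤
      ∑ a : ZMod q with Core k P 1 a, ‖fw k P a‖ ^ s +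
      ∑ a : ZMod q with Maj k P (‖fw k P a‖ / cM k) a ∧ ¬ Core k P 1 a, ‖fw k P a‖ ^ s +
      ∑ a : ZMod q with ¬ Maj k P (‖fw k P a‖ / cM k) a, ‖fw k P a‖ ^ s := by
    simp only [sum_filter, ← sum_add_distrib]
    refine sum_le_sum fun a _ => ?_
    have h0 : 0 ≤ ‖fw k P a‖ ^ s := by positivity
    by_cases c1 : Core k P 1 a <;> by_cases c2 : Maj k P (‖fw k P a‖ / cM k) a <;>
      simp [c1, c2, h0]
  have e : (3 * 2 ^ s + A + 1) * (q : ℝ) * ((P : ℝ) ^ s / (P : ℝ) ^ k) =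
      3 * (q / (P : ℝ) ^ k) * (2 * (P : ℝ)) ^ s +
      A * q * (P : ℝ) ^ s / ((P : ℝ) ^ k * ((1 : ℕ) : ℝ)) + 1 * q * (P : ℝ) ^ s / (P : ℝ) ^ k := by
    rw [mul_pow, Nat.cast_one]
    ring
  rw [e]
  refine b5.trans (add_le_add (add_le_add b4 ?_) ?_)
  · convert b1
  · convert b2

end Pool.Agent.MP_927be3_nt.W61
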