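import Pool.Agent.MP_927be3_nt.Up.H
import Pool.Agent.MP_927be3_nt.W61.S2

/-! Row RNG of campaign h61w: the level bound in the two ranges (copies of `main1`, `main3`). -/

namespace Pool.Agent.MP_927be3_nt.W61

open Finset Filter Topology Pool.Agent.MP_927be3_nt.W

-- BEGIN
theorem rng_one (k j d : ℕ) (hk : 5 ≤ k) (hj1 : 1 ≤ j) (hj : j < k)
    (h1 : 7 * k * (k + 1) + 6 ≤ 10 * d)
    (h2 : 2 * ((k : ℤ) - j) * (k * (k + 1) - d) < 3 * (d - min (2 ^ j) (j * (j + 1)))) :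
    4 * k ≤ d ∧ k ^ 2 ≤ 2 * d ∧ LB k d (cM k) := by
  obtain ⟨w, hM, hw⟩ : ∃ w, Mom k w j ∧ 2 * w = min (2 ^ j) (j * (j + 1)) := by
    rcases le_total (2 ^ j) (j * (j + 1)) with h | h
    · refine ⟨_, hua hj1 hj.le, ?_⟩
      rw [min_eq_left h, ← pow_succ', Nat.sub_add_cancel hj1]
    · exact ⟨_, jline hj1 hj.le, by rw [min_eq_right h, two_mul_tri]⟩
  obtain ⟨m, hm⟩ := Nat.exists_eq_add_of_le hj.le
  have hw' : 2 * w ≤ j * (j + 1) := hw ▸ min_le_right _ _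
  have hK : 30 ≤ k * (k + 1) := by nlinarith
  rw [mul_assoc] at h1
  refine ⟨by nlinarith, by nlinarith, ?_⟩
  rcases le_or_gt (k * (k + 1)) d with h | h
  · exact lb_mono (fina_lb (s := k * (k + 1) - 1) (t := 1) hk hm (by omega) (by omega) le_rfl
      hM hw' (by omega) (Or.inl rfl)) (by omega)
  · obtain ⟨t, ht⟩ := Nat.exists_eq_add_of_le h.le
    refine fina_lb (t := t) hk hm (by omega) ht.symm (by omega) hM hw' (by omega) (Or.inr ?_)
    have e2 : ((k : ℤ) * (k + 1) - d) = t := by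
      have : ((k * (k + 1) : ℕ) : ℤ) = (d + t : ℕ) := by rw [ht]
      push_cast at this
      linarith
    have e3 : (k : ℤ) - j = m := by rw [hm]; push_cast; ring
    rw [← hw, e2, e3] at h2
    zify
    push_cast at h2
    linarith

theorem rng_three (k d : ℕ) (hk : 5 ≤ k) (hd : (k : ℝ) ^ 2 - 3 * k + 12 * √k ≤ d) :
    4 * k ≤ d ∧ k ^ 2 ≤ 2 * d ∧ LB k d (cM k) := by
  obtain ⟨r, h1, h2⟩ : ∃ r : ℕ, r ^ 2 ≤ k ∧ k < (r + 1) ^ 2 :=
    ⟨k.sqrt, Nat.sqrt_le' k, Nat.lt_succ_sqrt' k⟩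
  have hr : (r : ℝ) ≤ √k := Real.le_sqrt_of_sq_le (by exact_mod_cast h1)
  have hd' : k ^ 2 + 12 * r ≤ d + 3 * k := by
    have : (k : ℝ) ^ 2 + 12 * r ≤ d + 3 * k := by linarith
    exact_mod_cast this
  rcases lt_or_ge k 25 with h | h
  · have r2 : 2 ≤ r := by
      by_contra hc
      have : (r + 1) ^ 2 ≤ 2 ^ 2 := Nat.pow_le_pow_left (by omega) 2
      omega
    have r4 : r ≤ 4 := by nlinarith
    obtain ⟨j, hj, a1, a2⟩ := root_small r (mem_Icc.2 ⟨r2, r4⟩) k (mem_Icc.2 ⟨hk, by omega⟩) h2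
    obtain ⟨j1, j2⟩ := mem_Ico.1 hj
    refine rng_one k j d hk j1 j2 (by omega) ?_
    have a3 := a2.trans_le (Nat.mul_le_mul_left _ hd')
    have a4 : ((min (2 ^ j) (j * (j + 1)) : ℕ) : ℤ) ≤ j * (j + 1) := by
      exact_mod_cast min_le_right _ _
    zify [j2.le] at a3
    nlinarith
  have r5 : 5 ≤ r := by
    by_contra hc
    have : (r + 1) ^ 2 ≤ 5 ^ 2 := Nat.pow_le_pow_left (by omega) 2
    omega
  have k5 : 5 * r ≤ k := le_trans (by nlinarith) h1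
  obtain ⟨s, t, hs, hst, ht, ht'⟩ : ∃ s t : ℕ, s ≤ d ∧ s + t = k * (k + 1) ∧ 1 ≤ t ∧
      t + 12 * r ≤ 4 * k := by
    have e : k * (k + 1) = k ^ 2 + k := by ring
    have e' : 3 * k ≤ k ^ 2 := by nlinarith
    exact ⟨k ^ 2 + 12 * r - 3 * k, 4 * k - 12 * r, by omega, by omega, by omega, by omega⟩
  obtain ⟨b, b1, b2⟩ : ∃ b, r ≤ 2 * b ∧ 2 * b ≤ r + 1 := ⟨(r + 1) / 2, by omega, by omega⟩
  obtain ⟨a1, a2, a4, a5, a6, a7, a8, a9, a10⟩ := root_params r5 b1 b2 h1 h2 hst ht'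
  have bR : (3 : ℝ) ≤ b := by exact_mod_cast (by omega : 3 ≤ b)
  have g0 : 1 / (b : ℝ) * b = 1 := by field_simp
  have g1 : (1 : ℝ) / 2 ≤ 1 - 1 / b := by
    have : 1 / (b : ℝ) ≤ 1 / 3 := by gcongr
    linarith
  have g2 : (1 - 1 / (b : ℝ)) * (b + 1) < b := by
    have : (0 : ℝ) < 1 / b := by positivity
    nlinarith
  have i1 := mid_gen2 (by omega) a2 hst ht a7 g1 g2 (by nlinarith) a8 a9 a10
  have i2 : Mid k s t (2 * tri (k - 2 * r)) (k - (k - 2 * r)) := by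
    rwa [two_mul_tri, Nat.sub_sub_self a1.le]
  exact ⟨a5.trans hs, by omega, (lb_mono (lb_glue (by omega) hst ht a4
    (jline (by omega) (by omega)) (by rwa [two_mul_tri]) (by omega) i2 (fina_cM k)) hs)⟩

theorem rng_row : RNG_s := by
  rintro k s hk (h | ⟨j, a, b, c, d⟩)
  · exact rng_three k s hk h
  · exact rng_one k j s hk a b c d

end Pool.Agent.MP_927be3_nt.W61
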