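import Pool.Agent.MP_927be3_nt.W61.S2
import Pool.Agent.MP_927be3_nt.Up.E

namespace Pool.Agent.MP_927be3_nt.W61

open Finset Filter Topology Pool.Agent.MP_927be3_nt.W

theorem SINT_row (hF : FULL_s) : SINT_s := by
  classical
  intro k s hk hs
  have hs1 : 1 ≤ s := by omega
  obtain ⟨A1, hA1, h2⟩ := vsum hk hs
  obtain ⟨A2, hA2, h3⟩ := vtail hk hs
  refine ⟨A1 + A2, by positivity, ?_⟩
  intro P n q _ hP hn1 hn2 hq
  have hJ2 := hF k s P n q hk hs1 hn2 hq
  generalize cpow (wt k) s n = J at hJ2 ⊢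
  have hP' : (0 : ℝ) < P := by exact_mod_cast hP
  have hq0 : 0 < q := NeZero.pos q
  have hq' : (0 : ℝ) < q := by exact_mod_cast hq0
  have hPq : P ^ k ≤ q := by
    have := Nat.le_mul_of_pos_left ((P + 1) ^ k) hs1
    omega
  have hnorm : ∀ a : ZMod q, ‖vv k P a ^ s * ch (-(a * (n : ZMod q)))‖ = ‖vv k P a‖ ^ s := by
    intro a
    rw [norm_mul, norm_ch, mul_one, norm_pow]
  refine ⟨?_, ?_⟩
  · have h4 : (q : ℝ) * |J| ≤ A1 * q * (P : ℝ) ^ s / (P : ℝ) ^ k := by
      calc (q : ℝ) * |J| = ‖(q : ℂ) * (J : ℂ)‖ := by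
            rw [norm_mul, Complex.norm_natCast, Complex.norm_real, Real.norm_eq_abs]
        _ ≤ ∑ a : ZMod q, ‖vv k P a‖ ^ s := by
            rw [← hJ2]
            exact (norm_sum_le _ _).trans (le_of_eq (sum_congr rfl fun a _ => hnorm a))
        _ ≤ ∑ β ∈ Iq q, ‖vv k P (β : ZMod q)‖ ^ s :=
            sint_inj univ (Iq q) (fun a => ‖vv k P a‖ ^ s) (fun a => by positivity)
              fun a _ => sint_mem_Iq a
        _ ≤ _ := h2 P q hP hPq
    have h5 : |J| ≤ A1 * (P : ℝ) ^ s / (P : ℝ) ^ k := by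
      refine le_of_mul_le_mul_left (h4.trans (le_of_eq ?_)) hq'
      ring
    refine h5.trans ?_
    gcongr
    linarith
  · intro R hR hR3
    set B := ⌊R * q / (P : ℝ) ^ k⌋₊ with hB
    have hB1 : (B : ℝ) ≤ R * q / (P : ℝ) ^ k := Nat.floor_le (by positivity)
    have hB2 : R * q / (P : ℝ) ^ k < B + 1 := Nat.lt_floor_add_one _
    have hB3 : 3 * B ≤ q := by
      have h4 : R * q / (P : ℝ) ^ k ≤ q / 3 := by
        rw [div_le_div_iff₀ (by positivity) (by norm_num)]
        nlinarith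
      have h5 : (3 : ℝ) * B ≤ q := by linarith
      exact_mod_cast h5
    rw [sint_Icc B (by omega) (fun a => vv k P a ^ s * ch (-(a * (n : ZMod q)))), ← hJ2,
      ← sum_filter_add_sum_filter_not univ (fun a : ZMod q => |a.valMinAbs| ≤ B),
      sub_add_cancel_left, norm_neg]
    refine (norm_sum_le _ _).trans ?_
    rw [sum_congr rfl fun a _ => hnorm a]
    refine (sint_inj _ ((Iq q).filter (fun β : ℤ => R * q / (P : ℝ) ^ k < |(β : ℝ)|))
      (fun a => ‖vv k P a‖ ^ s) (fun a => by positivity) ?_).trans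
      ((h3 P q hP hPq R hR).trans ?_)
    · intro a ha
      refine mem_filter.2 ⟨sint_mem_Iq a, hB2.trans_le ?_⟩
      have h4 : (B : ℤ) + 1 ≤ |a.valMinAbs| := not_le.1 (mem_filter.1 ha).2
      exact_mod_cast h4
    · gcongr
      linarith

end Pool.Agent.MP_927be3_nt.W61
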