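import Pool.Agent.MP_927be3_nt.W61.S2
import Pool.Agent.MP_927be3_nt.Up.E

namespace Pool.Agent.MP_927be3_nt.W61

open Finset Filter Topology Pool.Agent.MP_927be3_nt.W

theorem tail_term (k s n d : ℕ) : term k s n d = Aq k s n d := by
  simp only [term, Aq, gauss, Sc, ex, ee]
  refine sum_congr rfl fun a _ => ?_
  push_cast
  rfl

theorem tail_row : TAIL_s := by
  intro k s hk hs
  obtain ⟨A, hA, h⟩ := aq_le hk hs
  refine ⟨2 * A, by positivity, fun n => ?_⟩
  have hb : ∀ q : ℕ, ‖term k s n (q + 1)‖ ≤ A / ((q + 1 : ℕ) : ℝ) ^ 2 := fun q => by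
    rw [tail_term]
    exact h n _ (by omega)
  have hs2 : Summable fun q : ℕ => A / ((q + 1 : ℕ) : ℝ) ^ 2 := by
    have h1 : Summable fun q : ℕ => A * (1 / (q : ℝ) ^ 2) :=
      (Real.summable_one_div_nat_pow.2 (by norm_num)).mul_left A
    simpa only [mul_one_div] using (summable_nat_add_iff 1).2 h1
  have hsum : Summable fun q : ℕ => term k s n (q + 1) := Summable.of_norm_bounded hs2 hb
  have key : ∀ Q0 : ℕ, 1 ≤ Q0 → ‖sing k s n - SS k s n Q0‖ ≤ A / Q0 := by
    intro Q0 hQ
    have e : SS k s n Q0 = ∑ q ∈ range Q0, term k s n (q + 1) := by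
      rw [SS, range_eq_Ico, sum_Ico_add' (fun q => term k s n q) 0 Q0 1]
      refine sum_congr ?_ fun d _ => (tail_term k s n d).symm
      ext d
      simp only [mem_Icc, mem_Ico]
      omega
    rw [e, sing, ← hsum.sum_add_tsum_nat_add Q0, add_sub_cancel_left]
    have hs3 := (summable_nat_add_iff Q0).2 hs2
    refine (tsum_of_norm_bounded hs3.hasSum fun q => hb (q + Q0)).trans ?_
    refine hs3.tsum_le_of_sum_range_le fun N => ?_
    have h4 := singb_tail hQ ((range N).image fun q => q + Q0 + 1) (fun d hd => by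
      obtain ⟨q, -, rfl⟩ := mem_image.1 hd
      omega) hA.le
    rwa [sum_image fun x _ y _ hxy => by simpa using hxy] at h4
  refine ⟨hsum, ?_, fun Q0 hQ => (key Q0 hQ).trans ?_⟩
  · have h1 := key 1 le_rfl
    have h2 : ‖SS k s n 1‖ ≤ A := by simpa [SS] using h n 1 le_rfl
    have h3 := norm_add_le (sing k s n - SS k s n 1) (SS k s n 1)
    rw [sub_add_cancel] at h3
    simp only [Nat.cast_one, div_one] at h1
    linarith
  · have : (0 : ℝ) < Q0 := by exact_mod_cast hQ
    gcongr
    linarith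

end Pool.Agent.MP_927be3_nt.W61
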