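import Pool.Agent.MP_927be3_nt.W61.S2

namespace Pool.Agent.MP_927be3_nt.W61

open Finset Filter Topology Pool.Agent.MP_927be3_nt.W

theorem top_Y {k s P n : ℕ} (hk : 1 ≤ k) (hs : k ≤ s) (hP : 1 ≤ P) (h : P ^ k ≤ n) :
    (P : ℝ) ^ s / (P : ℝ) ^ k ≤ (n : ℝ) ^ ((s : ℝ) / k - 1) := by
  have hP0 : (0 : ℝ) < P := by exact_mod_cast hP
  have hk0 : (0 : ℝ) < k := by exact_mod_cast hk
  have h1 : ((P : ℝ) ^ k) ≤ n := by exact_mod_cast h
  have h2 : (k : ℝ) ≤ s := by exact_mod_cast hs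
  have he : 0 ≤ (s : ℝ) / k - 1 := by
    rw [sub_nonneg, le_div_iff₀ hk0]
    linarith
  calc (P : ℝ) ^ s / (P : ℝ) ^ k = ((P : ℝ) ^ k) ^ ((s : ℝ) / k - 1) := by
        rw [← Real.rpow_natCast (P : ℝ) k, ← Real.rpow_mul hP0.le, ← Real.rpow_natCast (P : ℝ) s,
          ← Real.rpow_sub hP0]
        congr 1
        field_simp
    _ ≤ _ := Real.rpow_le_rpow (by positivity) h1 he

theorem top_fin {r p J G N Y η A t : ℝ} {S : ℂ} (hN : 0 < N) (hY : Y ≤ N) (hη : 0 < η)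
    (ht : 0 ≤ t) (h1 : r ≤ p) (h2 : p ≤ r + t * (η * Y)) (h3 : ‖(p : ℂ) - S * (J : ℂ)‖ ≤ η * Y)
    (h4 : ‖S‖ ≤ A) (h5 : |J / N - G| ≤ η) :
    ‖(r : ℂ) / (N : ℂ) - (G : ℂ) * S‖ ≤ (t + 1 + A) * η := by
  have hN' : (N : ℂ) ≠ 0 := by exact_mod_cast hN.ne'
  have e : (r : ℂ) / (N : ℂ) - (G : ℂ) * S =
      (((r - p) / N : ℝ) : ℂ) + ((p : ℂ) - S * (J : ℂ)) / (N : ℂ) +
        S * ((J / N - G : ℝ) : ℂ) := by
    push_cast
    field_simp
    ring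
  have b0 : η * Y ≤ η * N := by gcongr
  have b1 : ‖(((r - p) / N : ℝ) : ℂ)‖ ≤ t * η := by
    rw [Complex.norm_real, Real.norm_eq_abs, abs_div, abs_of_pos hN, div_le_iff₀ hN, abs_le]
    have : t * (η * Y) ≤ t * (η * N) := by gcongr
    have : 0 ≤ t * η * N := by positivity
    constructor <;> nlinarith
  have b2 : ‖((p : ℂ) - S * (J : ℂ)) / (N : ℂ)‖ ≤ η := by
    rw [norm_div, Complex.norm_real, Real.norm_eq_abs, abs_of_pos hN, div_le_iff₀ hN]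
    linarith
  have b3 : ‖S * ((J / N - G : ℝ) : ℂ)‖ ≤ A * η := by
    rw [norm_mul, Complex.norm_real, Real.norm_eq_abs]
    exact mul_le_mul h4 h5 (abs_nonneg _) ((norm_nonneg _).trans h4)
  rw [e]
  refine norm_add₃_le.trans ?_
  linarith

theorem top_row (JAS : JAS_s) (TAIL : TAIL_s) (CIRC : CIRC_s) (ZER : ZER_s) (CNT : CNT_s) :
    TOP_s := by
  intro k s hk hs hL
  obtain ⟨t, rfl⟩ : ∃ t, s = t + 1 := ⟨s - 1, by omega⟩
  obtain ⟨A, hA, hT⟩ := TAIL k (t + 1) hk hs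
  have hJ := JAS k (t + 1) (by omega) (by omega)
  rw [Metric.tendsto_atTop] at hJ ⊢
  intro ε hε
  have hη : 0 < ε / (t + 3 + A) := by positivity
  obtain ⟨N1, h1⟩ := hJ _ hη
  obtain ⟨P1, h2⟩ := CIRC k (t + 1) hk hs hL _ hη
  obtain ⟨P2, h3⟩ := ZER k t hk hs hL _ hη
  refine ⟨N1 + (P1 + P2 + 1) ^ k, fun n hn => ?_⟩
  have hk0 : k ≠ 0 := by omega
  have a1 : P1 + P2 + 1 ≤ Nat.nthRoot k n := (Nat.le_nthRoot_iff hk0).2 (by omega)
  have a2 : Nat.nthRoot k n ^ k ≤ n := (Nat.le_nthRoot_iff hk0).1 le_rfl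
  have a3 : n < (Nat.nthRoot k n + 1) ^ k := Nat.lt_pow_nthRoot_add_one hk0 n
  generalize Nat.nthRoot k n = P at a1 a2 a3
  have hP : 1 ≤ P := by omega
  have hn0 : (0 : ℝ) < n := by
    have : 0 < P ^ k := by positivity
    exact_mod_cast this.trans_le a2
  obtain ⟨c1, c2⟩ := CNT k t P n (by omega) a3
  have c3 := h3 P n (by omega) a3
  have c4 := h2 P n (by omega) a2 a3
  have c5 := h1 n (by omega)
  rw [Real.dist_eq] at c5
  have c6 : (Rep k (t + 1) P n : ℝ) ≤ R k (t + 1) n + (t + 1) * Rep k t P n := by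
    exact_mod_cast c2
  have c7 : ((t : ℝ) + 1) * Rep k t P n ≤
      (t + 1) * (ε / (t + 3 + A) * ((P : ℝ) ^ (t + 1) / (P : ℝ) ^ k)) := by gcongr
  have := top_fin (r := R k (t + 1) n) (p := Rep k (t + 1) P n) (t := t + 1)
    (Real.rpow_pos_of_pos hn0 _) (top_Y (s := t + 1) (by omega) (by omega) hP a2) hη
    (by positivity) (by exact_mod_cast c1) (by linarith) (by simpa using c4) (hT n).2.1 c5.le
  rw [dist_zero_right]
  refine lt_of_le_of_lt (by simpa using this) ?_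
  rw [← mul_div_assoc, div_lt_iff₀ (by positivity)]
  nlinarith

end Pool.Agent.MP_927be3_nt.W61
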