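import Pool.Agent.MP_927be3_nt.W61.S2

namespace Pool.Agent.MP_927be3_nt.W61

open Finset Filter Topology Pool.Agent.MP_927be3_nt.W

-- BEGIN
theorem vv_root {k x m : ℕ} (hk : k ≠ 0) (h1 : x ^ k ≤ m) (h2 : m < (x + 1) ^ k) :
    Nat.nthRoot k m = x := by
  have h3 : x ≤ Nat.nthRoot k m := (Nat.le_nthRoot_iff hk).2 h1
  have h4 : Nat.nthRoot k m < x + 1 := (Nat.nthRoot_lt_iff hk).2 h2
  omega

theorem vv_aux {k q : ℕ} [NeZero q] (hk : k ≠ 0) (β : ZMod q) (N : ℕ) :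
    ∑ x ∈ range N, ∑ m ∈ Ico (x ^ k) ((x + 1) ^ k),
        ch (β * (m : ZMod q)) / (((x + 1) ^ k - x ^ k : ℕ) : ℂ) =
      ∑ m ∈ range (N ^ k), (wt k m : ℂ) * ch (β * (m : ZMod q)) := by
  induction N with
  | zero => simp [zero_pow hk]
  | succ N ih =>
    have hlt : N ^ k < (N + 1) ^ k := Nat.pow_lt_pow_left (Nat.lt_succ_self N) hk
    rw [sum_range_succ, ih, ← sum_range_add_sum_Ico _ hlt.le]
    congr 1
    refine sum_congr rfl fun m hm => ?_
    rw [wt, vv_root hk (mem_Ico.1 hm).1 (mem_Ico.1 hm).2]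
    push_cast [-Nat.cast_sub]
    ring

theorem vv_row : VV_s := by
  intro k P q _ β hk
  exact vv_aux (by omega) β (P + 1)

end Pool.Agent.MP_927be3_nt.W61
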