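import Pool.Agent.MP_927be3_nt.W61.S1

namespace Pool.Agent.MP_927be3_nt.W61

open Finset Filter Topology

theorem wt_diff (j : ℕ) {x : ℝ} (hx : 0 ≤ x) :
    ((j : ℝ) + 1) * x ^ j ≤ (x + 1) ^ (j + 1) - x ^ (j + 1) ∧
      (x + 1) ^ (j + 1) - x ^ (j + 1) ≤ ((j : ℝ) + 1) * (x + 1) ^ j := by
  induction j with
  | zero => constructor <;> simp
  | succ j ih =>
    obtain ⟨h1, h2⟩ := ih
    have e : (x + 1) ^ (j + 1 + 1) - x ^ (j + 1 + 1) =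
        (x + 1) * ((x + 1) ^ (j + 1) - x ^ (j + 1)) + x ^ (j + 1) := by ring
    have hp : 0 ≤ ((j : ℝ) + 1) * x ^ j := by positivity
    have a1 : (x + 1) * (((j : ℝ) + 1) * x ^ j) ≤ (x + 1) * ((x + 1) ^ (j + 1) - x ^ (j + 1)) :=
      mul_le_mul_of_nonneg_left h1 (by linarith)
    have a2 : (x + 1) * ((x + 1) ^ (j + 1) - x ^ (j + 1)) ≤
        (x + 1) * (((j : ℝ) + 1) * (x + 1) ^ j) := mul_le_mul_of_nonneg_left h2 (by linarith)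
    have a3 : x ^ (j + 1) ≤ (x + 1) ^ (j + 1) := pow_le_pow_left₀ hx (by linarith) _
    have e1 : (x + 1) * (((j : ℝ) + 1) * x ^ j) =
        ((j : ℝ) + 1) * x ^ (j + 1) + ((j : ℝ) + 1) * x ^ j := by ring
    have e2 : (x + 1) * (((j : ℝ) + 1) * (x + 1) ^ j) = ((j : ℝ) + 1) * (x + 1) ^ (j + 1) := by ring
    rw [e]
    push_cast
    constructor <;> nlinarith

theorem wt_bound (j m : ℕ) (hm : 1 ≤ m) :
    (((Nat.nthRoot (j + 1) m : ℕ) : ℝ) / ((Nat.nthRoot (j + 1) m : ℕ) + 1)) ^ j / ((j : ℝ) + 1) ≤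
        wt (j + 1) m / (m : ℝ) ^ (1 / ((j + 1 : ℕ) : ℝ) - 1) ∧
      wt (j + 1) m / (m : ℝ) ^ (1 / ((j + 1 : ℕ) : ℝ) - 1) ≤
        ((((Nat.nthRoot (j + 1) m : ℕ) : ℝ) / ((Nat.nthRoot (j + 1) m : ℕ) + 1))⁻¹) ^ j /
          ((j : ℝ) + 1) := by
  have hk : j + 1 ≠ 0 := Nat.succ_ne_zero j
  have n1 : Nat.nthRoot (j + 1) m ^ (j + 1) ≤ m := Nat.pow_nthRoot_le_iff.2 (Or.inl hk)
  have n2 : m < (Nat.nthRoot (j + 1) m + 1) ^ (j + 1) := Nat.lt_pow_nthRoot_add_one hk m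
  have n3 : 1 ≤ Nat.nthRoot (j + 1) m := (Nat.le_nthRoot_iff hk).2 (by simpa using hm)
  unfold wt
  generalize Nat.nthRoot (j + 1) m = y at n1 n2 n3 ⊢
  have hy : (1 : ℝ) ≤ y := by exact_mod_cast n3
  have hy0 : (0 : ℝ) < y := by linarith
  have hm0 : (0 : ℝ) < m := by exact_mod_cast hm
  have hc : ((((y + 1) ^ (j + 1) - y ^ (j + 1) : ℕ)) : ℝ) =
      ((y : ℝ) + 1) ^ (j + 1) - (y : ℝ) ^ (j + 1) := by
    rw [Nat.cast_sub (Nat.pow_le_pow_left (Nat.le_succ y) _)]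
    push_cast
    rfl
  obtain ⟨t, ht⟩ : ∃ t : ℝ, t = (m : ℝ) ^ (1 / ((j + 1 : ℕ) : ℝ)) := ⟨_, rfl⟩
  have ht0 : 0 < t := by rw [ht]; exact Real.rpow_pos_of_pos hm0 _
  have htk : t ^ (j + 1) = m := by
    rw [ht, one_div]; exact Real.rpow_inv_natCast_pow hm0.le hk
  have b1 : (y : ℝ) ≤ t := by
    refine (pow_le_pow_iff_left₀ hy0.le ht0.le hk).1 ?_
    rw [htk]; exact_mod_cast n1
  have b2 : t ≤ (y : ℝ) + 1 := by
    refine (pow_le_pow_iff_left₀ ht0.le (by linarith) hk).1 ?_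
    rw [htk]; exact_mod_cast n2.le
  have hr : (m : ℝ) ^ (1 / ((j + 1 : ℕ) : ℝ) - 1) = 1 / t ^ j := by
    rw [Real.rpow_sub_one hm0.ne', ← ht, ← htk, pow_succ]
    field_simp
  obtain ⟨d1, d2⟩ := wt_diff j hy0.le
  rw [hc, hr]
  obtain ⟨D, hD⟩ : ∃ D : ℝ, D = ((y : ℝ) + 1) ^ (j + 1) - (y : ℝ) ^ (j + 1) := ⟨_, rfl⟩
  rw [← hD] at d1 d2 ⊢
  have hl : 0 < ((j : ℝ) + 1) * (y : ℝ) ^ j := by positivity
  have hD0 : 0 < D := hl.trans_le d1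
  have e0 : 1 / D / (1 / t ^ j) = t ^ j / D := by field_simp
  have c1 : (y : ℝ) ^ j ≤ t ^ j := pow_le_pow_left₀ hy0.le b1 _
  have c2 : t ^ j ≤ ((y : ℝ) + 1) ^ j := pow_le_pow_left₀ ht0.le b2 _
  rw [e0]
  constructor
  · have e1 : ((y : ℝ) / (y + 1)) ^ j / ((j : ℝ) + 1) =
        (y : ℝ) ^ j / (((j : ℝ) + 1) * ((y : ℝ) + 1) ^ j) := by
      rw [div_pow]; field_simp
    rw [e1]
    exact div_le_div₀ (by positivity) c1 hD0 d2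
  · have e2 : (((y : ℝ) / (y + 1))⁻¹) ^ j / ((j : ℝ) + 1) =
        ((y : ℝ) + 1) ^ j / (((j : ℝ) + 1) * (y : ℝ) ^ j) := by
      rw [inv_div, div_pow]; field_simp
    rw [e2]
    exact div_le_div₀ (by positivity) c2 hl d1

theorem wt_row : WT_s := by
  intro k hk
  obtain ⟨j, rfl⟩ : ∃ j, k = j + 1 := ⟨k - 1, by omega⟩
  have hx : Tendsto (fun m : ℕ => Nat.nthRoot (j + 1) m) atTop atTop :=
    tendsto_atTop.2 fun b => (eventually_ge_atTop (b ^ (j + 1))).mono fun m hm =>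
      (Nat.le_nthRoot_iff (Nat.succ_ne_zero j)).2 hm
  have h1 : Tendsto (fun m : ℕ => ((Nat.nthRoot (j + 1) m : ℕ) : ℝ) /
      ((Nat.nthRoot (j + 1) m : ℕ) + 1)) atTop (𝓝 1) :=
    (tendsto_natCast_div_add_atTop (1 : ℝ)).comp hx
  have h2 := (h1.pow j).div_const ((j : ℝ) + 1)
  have h3 := ((h1.inv₀ one_ne_zero).pow j).div_const ((j : ℝ) + 1)
  have e : (1 : ℝ) / ((j + 1 : ℕ) : ℝ) = 1 / ((j : ℝ) + 1) := by push_cast; rfl
  simp only [inv_one, one_pow] at h2 h3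
  rw [← e] at h2 h3
  exact tendsto_of_tendsto_of_tendsto_of_le_of_le' h2 h3
    ((eventually_ge_atTop 1).mono fun m hm => (wt_bound j m hm).1)
    ((eventually_ge_atTop 1).mono fun m hm => (wt_bound j m hm).2)

end Pool.Agent.MP_927be3_nt.W61
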