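import Pool.Agent.MP_927be3_nt.Up.B
import Pool.Agent.MP_927be3_nt.W61.S2

namespace Pool.Agent.MP_927be3_nt.W61

open Finset Filter Topology Pool.Agent.MP_927be3_nt.W

theorem zer4_pt (x T : ℝ) (s : ℕ) (hx : 0 ≤ x) (hT : 0 < T) :
    x ^ s ≤ T ^ s + x ^ (s + 1) / T := by
  rcases le_total x T with h | h
  · have h1 : x ^ s ≤ T ^ s := pow_le_pow_left₀ hx h s
    have h2 : 0 ≤ x ^ (s + 1) / T := by positivity
    linarith
  · have h1 : x ^ s ≤ x ^ (s + 1) / T := by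
      rw [le_div_iff₀ hT, pow_succ]
      exact mul_le_mul_of_nonneg_left h (by positivity)
    have h2 : 0 ≤ T ^ s := by positivity
    linarith

theorem zer4_size {k s P q : ℕ} [NeZero q] (hk : 1 ≤ k) (hs : s ≤ P) (hG : Good k P q) :
    s * (P + 1) ^ k < q := by
  refine lt_of_lt_of_le ?_ (hG.le hk)
  have a1 : P + 1 ≤ 8 * k * (P + 1) := Nat.le_mul_of_pos_left _ (by omega)
  have a2 : (P + 1) ^ k ≤ (8 * k * (P + 1)) ^ k := Nat.pow_le_pow_left a1 _
  have a3 : 8 * k * (P + 1) ≤ (8 * k * (P + 1)) ^ k := Nat.le_self_pow (by omega) _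
  have a4 : 0 < (P + 1) ^ k := by positivity
  rw [two_mul, pow_add]
  calc s * (P + 1) ^ k < (P + 1) * (P + 1) ^ k := Nat.mul_lt_mul_of_pos_right (by omega) a4
    _ ≤ _ := Nat.mul_le_mul (by omega) a2

theorem zer_row (hM : MOM_s) : ZER_s := by
  intro k s hk hs hLB η hη
  obtain ⟨A, hA, P0, hP0⟩ := hM k (s + 1) hk hs hLB
  set T : ℝ := 2 * A / η with hTdef
  have hT : 0 < T := by positivity
  obtain ⟨N, hN⟩ := exists_nat_ge (2 * T ^ s / η)
  refine ⟨max (max P0 (s + 1)) N, fun P n hP hn => ?_⟩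
  have hP1 : P0 ≤ P := le_trans (le_trans (le_max_left _ _) (le_max_left _ _)) hP
  have hP2 : s + 1 ≤ P := le_trans (le_trans (le_max_right _ _) (le_max_left _ _)) hP
  have hP3 : N ≤ P := le_trans (le_max_right _ _) hP
  obtain ⟨q, hq0, hG⟩ := exists_good k P
  have : NeZero q := ⟨hq0⟩
  have hsz : (s + 1) * (P + 1) ^ k < q := zer4_size (by omega) hP2 hG
  have hpos : 0 < (P + 1) ^ k := by positivity
  have hq1 : s * P ^ k < q := by
    have : P ^ k ≤ (P + 1) ^ k := Nat.pow_le_pow_left (by omega) _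
    calc s * P ^ k ≤ s * (P + 1) ^ k := Nat.mul_le_mul_left _ this
      _ ≤ (s + 1) * (P + 1) ^ k := Nat.mul_le_mul_right _ (by omega)
      _ < q := hsz
  have hq2 : n < q := by
    calc n < (P + 1) ^ k := hn
      _ ≤ (s + 1) * (P + 1) ^ k := Nat.le_mul_of_pos_left _ (by omega)
      _ < q := hsz
  have hfr := four_rep (k := k) (s := s) (P := P) (n := n) (q := q) hq1 hq2
  have hqR : (0 : ℝ) < q := by exact_mod_cast Nat.pos_of_ne_zero hq0
  set X : ℝ := (P : ℝ) ^ (s + 1) / (P : ℝ) ^ k with hX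
  have hPR : (1 : ℝ) ≤ P := by exact_mod_cast (by omega : 1 ≤ P)
  have hXP : (P : ℝ) ≤ X := by
    rw [hX, le_div_iff₀ (by positivity), ← pow_succ']
    exact pow_le_pow_right₀ hPR (by omega)
  have h1 : (q : ℝ) * (Rep k s P n : ℝ) ≤ ∑ a : ZMod q, ‖fw k P a‖ ^ s := by
    have e : (q : ℝ) * (Rep k s P n : ℝ) = ‖(q : ℂ) * (Rep k s P n : ℂ)‖ := by
      rw [norm_mul, Complex.norm_natCast, Complex.norm_natCast]
    rw [e, ← hfr]
    refine (norm_sum_le _ _).trans (le_of_eq (sum_congr rfl fun a _ => ?_))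
    rw [norm_mul, norm_pow, norm_ch, mul_one]
  have h2 : ∑ a : ZMod q, ‖fw k P a‖ ^ s ≤
      q * T ^ s + (∑ a : ZMod q, ‖fw k P a‖ ^ (s + 1)) / T := by
    calc ∑ a : ZMod q, ‖fw k P a‖ ^ s
        ≤ ∑ a : ZMod q, (T ^ s + ‖fw k P a‖ ^ (s + 1) / T) :=
          sum_le_sum fun a _ => zer4_pt _ _ _ (norm_nonneg _) hT
      _ = q * T ^ s + (∑ a : ZMod q, ‖fw k P a‖ ^ (s + 1)) / T := by
          rw [sum_add_distrib, sum_const, card_univ, ZMod.card, nsmul_eq_mul, sum_div]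
  have h3 : (∑ a : ZMod q, ‖fw k P a‖ ^ (s + 1)) / T ≤ q * (η / 2 * X) := by
    rw [div_le_iff₀ hT]
    refine (hP0 P q hP1 hG).trans (le_of_eq ?_)
    rw [← hX, hTdef]
    field_simp
  have h4 : T ^ s ≤ η / 2 * X := by
    have a1 : 2 * T ^ s / η ≤ X := hN.trans (le_trans (by exact_mod_cast hP3) hXP)
    rw [div_le_iff₀ hη] at a1
    linarith
  have h5 : (q : ℝ) * (Rep k s P n : ℝ) ≤ q * (η * X) := by
    have : (q : ℝ) * T ^ s ≤ q * (η / 2 * X) := mul_le_mul_of_nonneg_left h4 hqR.le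
    linarith
  exact le_of_mul_le_mul_left h5 hqR

end Pool.Agent.MP_927be3_nt.W61
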