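import Pool.Agent.MP_927be3_nt.W61.VAN
import Pool.Agent.MP_927be3_nt.W61.ASY
import Pool.Agent.MP_927be3_nt.W61.LIT
import Pool.Agent.MP_927be3_nt.W61.CONV
import Pool.Agent.MP_927be3_nt.W61.WT
import Pool.Agent.MP_927be3_nt.W61.JAS
import Pool.Agent.MP_927be3_nt.W61.EXP
import Pool.Agent.MP_927be3_nt.W61.RNG
import Pool.Agent.MP_927be3_nt.W61.VV
import Pool.Agent.MP_927be3_nt.W61.FULL
import Pool.Agent.MP_927be3_nt.W61.SINT
import Pool.Agent.MP_927be3_nt.W61.TAIL
import Pool.Agent.MP_927be3_nt.W61.LOW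
import Pool.Agent.MP_927be3_nt.W61.CIRC
import Pool.Agent.MP_927be3_nt.W61.MOM
import Pool.Agent.MP_927be3_nt.W61.ZER
import Pool.Agent.MP_927be3_nt.W61.CNT
import Pool.Agent.MP_927be3_nt.W61.TOP

namespace Pool.Agent.MP_927be3_nt.W61

theorem top_all : TOP_s :=
  top_row (jas_row ASY_row (conv_row van_row (lit_row van_row ASY_row)) wt_row) tail_row
    (circ_row (SINT_row (full_row vv_row exp_row)) tail_row) (zer_row MOM_row) cnt_row

end Pool.Agent.MP_927be3_nt.W61
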