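import Pool.Agent.MP_927be3_nt.W61.S1

namespace Pool.Agent.MP_927be3_nt.W61

open Finset Filter Topology

theorem van_succ (a : ℝ) (n : ℕ) : ((n : ℝ) + 1) * cc a (n + 1) = (a + n) * cc a n := by
  have h : (n.factorial : ℝ) ≠ 0 := by positivity
  have h' : (n : ℝ) + 1 ≠ 0 := by positivity
  rw [cc, cc, prod_range_succ, Nat.factorial_succ]
  push_cast
  field_simp

theorem van_row : VAN_s := by
  intro a b n
  induction n with
  | zero => simp [conv, cc]
  | succ n ih =>
    have h' : (n : ℝ) + 1 ≠ 0 := by positivity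
    refine mul_left_cancel₀ h' ?_
    have e1 : ((n : ℝ) + 1) * conv (cc a) (cc b) (n + 1) =
        ∑ p ∈ antidiagonal (n + 1), (p.1 : ℝ) * cc a p.1 * cc b p.2 +
          ∑ p ∈ antidiagonal (n + 1), cc a p.1 * ((p.2 : ℝ) * cc b p.2) := by
      rw [conv, mul_sum, ← sum_add_distrib]
      refine sum_congr rfl fun p hp => ?_
      have : (p.1 : ℝ) + p.2 = n + 1 := by exact_mod_cast mem_antidiagonal.1 hp
      rw [← this]
      ring
    rw [e1, Finset.Nat.sum_antidiagonal_succ, Finset.Nat.sum_antidiagonal_succ', van_succ, ← ih, conv,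
      mul_sum]
    simp only [Nat.cast_zero, zero_mul, mul_zero, zero_add, Nat.cast_add, Nat.cast_one, van_succ]
    rw [← sum_add_distrib]
    refine sum_congr rfl fun p hp => ?_
    have : (p.1 : ℝ) + p.2 = n := by exact_mod_cast mem_antidiagonal.1 hp
    rw [← this]
    ring

end Pool.Agent.MP_927be3_nt.W61
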